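import Mathlib

/-! # MP_2c59d0_an, Q1 (proved): every positive solution of `x_{n+1} = γ + x_{n-2m}/x_{n-1}` is
bounded -/

set_option autoImplicit false

open Filter Topology

namespace Pool.Agent.Results.MP_2c59d0_an.AlwaysBounded

/-- `x` is a solution with positive initial values; the terms `x_{-2m}, x_{-2m+1}, …` of the
problem are `x 0, x 1, …`. -/
def IsSolution (γ : ℝ) (m : ℕ) (x : ℕ → ℝ) : Prop :=
  (∀ i, i < 2 * m + 1 → 0 < x i) ∧
    ∀ n, x (n + (2 * m + 1)) = γ + x n / x (n + (2 * m - 1))

section basic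

variable {γ : ℝ} {m : ℕ} {x : ℕ → ℝ}

lemma pos_all (hγ : 0 < γ) (hm : 1 ≤ m) (hx : IsSolution γ m x) : ∀ n, 0 < x n := by
  intro n
  induction n using Nat.strong_induction_on with
  | _ n ih =>
    rcases Nat.lt_or_ge n (2 * m + 1) with h | h
    · exact hx.1 n h
    · have e : n = (n - (2 * m + 1)) + (2 * m + 1) := by omega
      rw [e, hx.2]
      have h1 := ih (n - (2 * m + 1)) (by omega)
      have h2 := ih (n - (2 * m + 1) + (2 * m - 1)) (by omega)
      positivity

lemma gt_all (hγ : 0 < γ) (hm : 1 ≤ m) (hx : IsSolution γ m x) :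
    ∀ n, 2 * m + 1 ≤ n → γ < x n := by
  intro n hn
  have e : n = (n - (2 * m + 1)) + (2 * m + 1) := by omega
  rw [e, hx.2]
  have h1 := pos_all hγ hm hx (n - (2 * m + 1))
  have h2 := pos_all hγ hm hx (n - (2 * m + 1) + (2 * m - 1))
  have : 0 < x (n - (2 * m + 1)) / x (n - (2 * m + 1) + (2 * m - 1)) := by positivity
  linarith

end basic

/-- the case `γ ≥ 1` (known) -/
lemma bounded_ge (γ : ℝ) (m : ℕ) (x : ℕ → ℝ) (hγ : 1 ≤ γ) (hm : 1 ≤ m)
    (hx : IsSolution γ m x) : ∃ C, ∀ n, x n ≤ C := by
  have hγ0 : 0 < γ := by linarith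
  have hpos := pos_all hγ0 hm hx
  have hgt := gt_all hγ0 hm hx
  -- lower and upper bounds on the window `[d, 2d)`
  obtain ⟨l, hl1, hl2⟩ : ∃ l, γ < l ∧ ∀ i, i < 2 * m + 1 → l ≤ x (2 * m + 1 + i) := by
    have : ∀ k, ∃ l, γ < l ∧ ∀ i, i < k → l ≤ x (2 * m + 1 + i) := by
      intro k
      induction k with
      | zero => exact ⟨γ + 1, by linarith, fun i hi => absurd hi (by omega)⟩
      | succ k ih =>
        obtain ⟨l, h1, h2⟩ := ih
        refine ⟨min l (x (2 * m + 1 + k)), lt_min h1 (hgt _ (by omega)), fun i hi => ?_⟩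
        rcases Nat.lt_or_ge i k with h | h
        · exact (min_le_left _ _).trans (h2 i h)
        · have : i = k := by omega
          rw [this]
          exact min_le_right _ _
    exact this _
  obtain ⟨u, hu⟩ : ∃ u, ∀ i, i < 2 * m + 1 → x (2 * m + 1 + i) ≤ u := by
    have : ∀ k, ∃ u, ∀ i, i < k → x (2 * m + 1 + i) ≤ u := by
      intro k
      induction k with
      | zero => exact ⟨0, fun i hi => absurd hi (by omega)⟩
      | succ k ih =>
        obtain ⟨u, h2⟩ := ih
        refine ⟨max u (x (2 * m + 1 + k)), fun i hi => ?_⟩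
        rcases Nat.lt_or_ge i k with h | h
        · exact (h2 i h).trans (le_max_left _ _)
        · have : i = k := by omega
          rw [this]
          exact le_max_right _ _
    exact this _
  have hu0 : 0 < u := lt_of_lt_of_le (hpos _) (hu 0 (by omega))
  -- choose `L` close to `γ`
  obtain ⟨L, hL1, hL2, hL3, hL4⟩ : ∃ L, γ < L ∧ L ≤ l ∧ L ≤ γ + 1 ∧ u * (L - γ) ≤ L := by
    refine ⟨γ + min (min (l - γ) 1) (1 / u), ?_, ?_, ?_, ?_⟩
    · have : 0 < min (min (l - γ) 1) (1 / u) := lt_min (lt_min (by linarith) one_pos) (by positivity)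
      linarith
    · have : min (min (l - γ) 1) (1 / u) ≤ l - γ := (min_le_left _ _).trans (min_le_left _ _)
      linarith
    · have : min (min (l - γ) 1) (1 / u) ≤ 1 := (min_le_left _ _).trans (min_le_right _ _)
      linarith
    · have h1 : min (min (l - γ) 1) (1 / u) ≤ 1 / u := min_le_right _ _
      have h2 : u * min (min (l - γ) 1) (1 / u) ≤ u * (1 / u) := by gcongr
      have h3 : u * (1 / u) = 1 := by field_simp
      have h4 : 0 < min (min (l - γ) 1) (1 / u) :=
        lt_min (lt_min (by linarith) one_pos) (by positivity)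
      have h5 : γ + min (min (l - γ) 1) (1 / u) - γ = min (min (l - γ) 1) (1 / u) := by ring
      rw [h5]
      linarith
  have hLg : 0 < L - γ := by linarith
  have hLpos : 0 < L := by linarith
  obtain ⟨U, hU⟩ : ∃ U, U = L / (L - γ) := ⟨_, rfl⟩
  have hU0 : 0 < U := by rw [hU]; positivity
  have huU : u ≤ U := by rw [hU, le_div_iff₀ hLg]; exact hL4
  have hkey : ∀ n, 2 * m + 1 ≤ n → L ≤ x n ∧ x n ≤ U := by
    intro n
    induction n using Nat.strong_induction_on with
    | _ n ih =>
      intro hn
      rcases Nat.lt_or_ge n (2 * (2 * m + 1)) with h | h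
      · have e : n = 2 * m + 1 + (n - (2 * m + 1)) := by omega
        rw [e]
        exact ⟨hL2.trans (hl2 _ (by omega)), (hu _ (by omega)).trans huU⟩
      · have e : n = (n - (2 * m + 1)) + (2 * m + 1) := by omega
        have h1 := ih (n - (2 * m + 1)) (by omega) (by omega)
        have h2 := ih (n - (2 * m + 1) + (2 * m - 1)) (by omega) (by omega)
        rw [e, hx.2]
        generalize x (n - (2 * m + 1)) = a at *
        generalize x (n - (2 * m + 1) + (2 * m - 1)) = b at *
        have hb : 0 < b := by linarith [h2.1]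
        constructor
        · have h3 : L / U ≤ a / b := by
            rw [div_le_div_iff₀ hU0 hb]
            nlinarith [h1.1, h2.2]
          have h4 : L / U = L - γ := by rw [hU]; field_simp
          linarith
        · have h3 : a / b ≤ U / L := by
            rw [div_le_div_iff₀ hb hLpos]
            nlinarith [h1.2, h2.1]
          have h4 : U / L = 1 / (L - γ) := by rw [hU]; field_simp
          have h5 : γ + 1 / (L - γ) ≤ U := by
            rw [hU, ← sub_nonneg]
            have : L / (L - γ) - (γ + 1 / (L - γ)) = (γ - 1) * (γ + 1 - L) / (L - γ) := by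
              field_simp
              ring
            rw [this]
            apply div_nonneg _ hLg.le
            exact mul_nonneg (by linarith) (by linarith)
          linarith
  obtain ⟨u', hu'⟩ : ∃ u', ∀ i, i < 2 * m + 1 → x i ≤ u' := by
    have : ∀ k, ∃ u, ∀ i, i < k → x i ≤ u := by
      intro k
      induction k with
      | zero => exact ⟨0, fun i hi => absurd hi (by omega)⟩
      | succ k ih =>
        obtain ⟨u, h2⟩ := ih
        refine ⟨max u (x k), fun i hi => ?_⟩
        rcases Nat.lt_or_ge i k with h | h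
        · exact (h2 i h).trans (le_max_left _ _)
        · have : i = k := by omega
          rw [this]
          exact le_max_right _ _
    exact this _
  refine ⟨max u' U, fun n => ?_⟩
  rcases Nat.lt_or_ge n (2 * m + 1) with h | h
  · exact (hu' n h).trans (le_max_left _ _)
  · exact (hkey n h).2.trans (le_max_right _ _)

/-- the core contradiction for `γ < 1` -/
lemma core (γ : ℝ) (m : ℕ) (x : ℕ → ℝ) (hγ : 0 < γ) (hγ1 : γ < 1) (hm : 1 ≤ m)
    (hx : IsSolution γ m x) (θ c X₀ P A : ℝ) (q r : ℕ) (hθ : γ < θ) (hθ1 : θ < 1)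
    (hc : c = γ ^ 2 / (1 - γ)) (hX : ∀ n, n ≤ 3 * (2 * m + 1) → x n ≤ X₀)
    (hP : P = γ / θ ^ r) (hP2 : 2 ≤ P) (hPX : X₀ < P)
    (hA : A * γ ^ (m * (q + r) + 2) = P + c)
    (hsmall : γ / (P - 1) + A / P ^ (q + 1) ≤ θ - γ) (hex : ∃ n, A ≤ x n) : False := by
  classical
  have hpos := pos_all hγ hm hx
  have hgt := gt_all hγ hm hx
  obtain ⟨d, hd⟩ : ∃ d, d = 2 * m + 1 := ⟨_, rfl⟩
  have hrec : ∀ n, x (n + d) = γ + x n / x (n + (2 * m - 1)) := by rw [hd]; exact hx.2
  have hc0 : 0 < c := by
    rw [hc]
    have : 0 < 1 - γ := by linarith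
    positivity
  have hθ0 : 0 < θ := by linarith
  have hP0 : 0 < P := by linarith
  obtain ⟨R, hR⟩ : ∃ R, R = m * (q + r) + 2 := ⟨_, rfl⟩
  rw [← hR] at hA
  have hAP : P ≤ A := by
    have h1 : γ ^ R ≤ 1 := pow_le_one₀ hγ.le hγ1.le
    have h2 : 0 < γ ^ R := by positivity
    have hA0 : 0 < A := by
      by_contra hcon
      push Not at hcon
      nlinarith
    nlinarith
  have hA0 : 0 < A := by linarith
  obtain ⟨N, hN⟩ : ∃ N, N = Nat.find hex := ⟨_, rfl⟩
  have hN1 : A ≤ x N := by rw [hN]; exact Nat.find_spec hex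
  have hN2 : ∀ j, j < N → x j < A := by
    intro j hj
    rw [hN] at hj
    exact not_le.1 (Nat.find_min hex hj)
  -- the chain in the residue class of `N`
  have hchain : ∀ j, j ≤ R → d * j + 2 * d ≤ N ∧
      ∀ p, p + d * j = N → γ ^ j * (A + c) ≤ x p + c := by
    intro j
    induction j with
    | zero =>
      intro _
      have : ¬ N ≤ 3 * (2 * m + 1) := by
        intro h
        have := hX N h
        linarith
      refine ⟨by omega, fun p hp => ?_⟩
      have : p = N := by omega
      rw [this, pow_zero, one_mul]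
      linarith
    | succ j ih =>
      intro hj
      obtain ⟨h1, h2⟩ := ih (by omega)
      obtain ⟨p, hp⟩ : ∃ p, p + d * (j + 1) = N := ⟨N - d * (j + 1), by
        have : d * (j + 1) = d * j + d := by ring
        omega⟩
      have hp' : p + d + d * j = N := by rw [← hp]; ring
      have h3 := h2 (p + d) hp'
      have hpd : d ≤ p := by omega
      have h4 : x (p + d) ≤ γ + x p / γ := by
        rw [hrec]
        have h5 : γ < x (p + (2 * m - 1)) := hgt _ (by omega)
        have h6 := hpos p
        gcongr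
      have h7 : γ ^ (j + 1) * (A + c) ≤ x p + c := by
        have h8 : γ * (γ + x p / γ + c) = x p + c := by
          rw [hc]
          have : (1 - γ) ≠ 0 := by linarith
          field_simp
          ring
        have h9 : γ * (γ ^ j * (A + c)) ≤ γ * (γ + x p / γ + c) := by
          apply mul_le_mul_of_nonneg_left _ hγ.le
          linarith
        calc γ ^ (j + 1) * (A + c) = γ * (γ ^ j * (A + c)) := by rw [pow_succ]; ring
          _ ≤ _ := h9
          _ = _ := h8
      have h10 : γ ^ R * A ≤ γ ^ (j + 1) * (A + c) := by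
        have : γ ^ R ≤ γ ^ (j + 1) := pow_le_pow_of_le_one hγ.le hγ1.le hj
        have h11 : γ ^ R * A ≤ γ ^ (j + 1) * A := by gcongr
        have h12 : 0 ≤ γ ^ (j + 1) * c := by positivity
        linarith
      have h13 : P ≤ x p := by linarith
      have h14 : ¬ p ≤ 3 * (2 * m + 1) := by
        intro h
        have := hX p h
        linarith
      refine ⟨?_, fun p' hp'' => ?_⟩
      · have : d * (j + 1) = d * j + d := by ring
        omega
      · have : p' = p := by omega
        rw [this]
        exact h7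
  have hNR := (hchain R le_rfl).1
  -- large classes
  have hL : ∀ k, k ≤ m → ∀ j p, p + d * j = N + 4 * k → p ≤ N → j + k * (q + r) ≤ R → P ≤ x p := by
    intro k
    induction k with
    | zero =>
      intro _ j p hp _ hj
      have hjR : j ≤ R := by omega
      have h1 := (hchain j hjR).2 p (by omega)
      have h2 : γ ^ R * A ≤ γ ^ j * (A + c) := by
        have : γ ^ R ≤ γ ^ j := pow_le_pow_of_le_one hγ.le hγ1.le hjR
        have h11 : γ ^ R * A ≤ γ ^ j * A := by gcongr
        have h12 : 0 ≤ γ ^ j * c := by positivity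
        linarith
      linarith
    | succ k ih =>
      intro hk
      have ihk := ih (by omega)
      -- small class
      have hM : ∀ i, ∀ j p, p + d * j = N + 4 * k + 2 → p ≤ N → j + i + k * (q + r) ≤ R →
          x p ≤ γ + γ / (P - 1) + A / P ^ (i + 1) := by
        intro i
        induction i with
        | zero =>
          intro j p hp hpN hj
          have hjR : d * j ≤ d * R := Nat.mul_le_mul_left d (by omega)
          obtain ⟨p', hp'⟩ : ∃ p', p = p' + d := ⟨p - d, by omega⟩
          have h1 : P ≤ x (p' + (2 * m - 1)) := ihk j _ (by omega) (by omega) (by omega)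
          have h2 : x p' < A := hN2 p' (by omega)
          rw [hp', hrec, zero_add, pow_one]
          have h3 : x p' / x (p' + (2 * m - 1)) ≤ A / P := by gcongr
          have h4 : 0 ≤ γ / (P - 1) := div_nonneg hγ.le (by linarith)
          linarith
        | succ i ihi =>
          intro j p hp hpN hj
          have hjR : d * j ≤ d * R := Nat.mul_le_mul_left d (by omega)
          obtain ⟨p', hp'⟩ : ∃ p', p = p' + d := ⟨p - d, by omega⟩
          have h1 : P ≤ x (p' + (2 * m - 1)) := ihk j _ (by omega) (by omega) (by omega)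
          have h2 := ihi (j + 1) p' (by
            have : d * (j + 1) = d * j + d := by ring
            omega) (by omega) (by omega)
          rw [hp', hrec]
          have h3 : x p' / x (p' + (2 * m - 1)) ≤
              (γ + γ / (P - 1) + A / P ^ (i + 1)) / P := by
            have h5 := hpos p'
            have h6 : 0 ≤ γ + γ / (P - 1) + A / P ^ (i + 1) := h5.le.trans h2
            exact div_le_div₀ h6 h2 hP0 h1
          have h4 : (γ + γ / (P - 1) + A / P ^ (i + 1)) / P = γ / (P - 1) + A / P ^ (i + 1 + 1) := by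
            have : P - 1 ≠ 0 := by linarith
            field_simp
            ring
          linarith
      have hM' : ∀ j p, p + d * j = N + 4 * k + 2 → p ≤ N → j + q + k * (q + r) ≤ R →
          x p ≤ θ := by
        intro j p hp hpN hj
        have := hM q j p hp hpN hj
        linarith
      -- growing class
      have hG : ∀ i, ∀ j p, p + d * j = N + 4 * k + 4 → p ≤ N → j + q + i + k * (q + r) ≤ R →
          γ / θ ^ i ≤ x p := by
        intro i
        induction i with
        | zero =>
          intro j p hp hpN hj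
          have hjR : d * j ≤ d * R := Nat.mul_le_mul_left d (by omega)
          rw [pow_zero, div_one]
          exact (hgt p (by omega)).le
        | succ i ihi =>
          intro j p hp hpN hj
          have hjR : d * j ≤ d * R := Nat.mul_le_mul_left d (by omega)
          obtain ⟨p', hp'⟩ : ∃ p', p = p' + d := ⟨p - d, by omega⟩
          have h1 : x (p' + (2 * m - 1)) ≤ θ := hM' j _ (by omega) (by omega) (by omega)
          have h2 := ihi (j + 1) p' (by
            have : d * (j + 1) = d * j + d := by ring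
            omega) (by omega) (by omega)
          rw [hp', hrec]
          have h3 : γ / θ ^ (i + 1) = (γ / θ ^ i) / θ := by
            rw [pow_succ]; field_simp
          have h4 : (γ / θ ^ i) / θ ≤ x p' / x (p' + (2 * m - 1)) := by
            have := hpos (p' + (2 * m - 1))
            have := hpos p'
            gcongr
          rw [h3]
          linarith
      intro j p hp hpN hj
      rw [hP]
      apply hG r j p (by omega) hpN
      have : (k + 1) * (q + r) = k * (q + r) + (q + r) := by ring
      omega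
  -- contradiction at `N`
  obtain ⟨p', hp'⟩ : ∃ p', N = p' + d := ⟨N - d, by omega⟩
  have h1 : P ≤ x (p' + (2 * m - 1)) := by
    apply hL m le_rfl 2 _ (by omega) (by omega)
    rw [hR]
    omega
  have h2 : x p' < A := hN2 p' (by omega)
  have h3 : x N < γ + A / P := by
    rw [hp', hrec]
    have h4 : x p' / x (p' + (2 * m - 1)) < A / P := by
      have := hpos p'
      calc x p' / x (p' + (2 * m - 1)) ≤ x p' / P := by gcongr
        _ < A / P := by gcongr
    linarith
  have h4 : A / P ≤ A / 2 := by gcongr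
  linarith

/-- **Q1 holds.** -/
theorem result (γ : ℝ) (m : ℕ) (x : ℕ → ℝ) (hγ : 0 < γ) (hm : 1 ≤ m) (hx : IsSolution γ m x) :
    ∃ C, ∀ n, x n ≤ C := by
  rcases le_or_gt 1 γ with hγ1 | hγ1
  · exact bounded_ge γ m x hγ1 hm hx
  by_contra hcon
  push Not at hcon
  obtain ⟨θ, hθd⟩ : ∃ θ, θ = (1 + γ) / 2 := ⟨_, rfl⟩
  have hθ : γ < θ := by rw [hθd]; linarith
  have hθ1 : θ < 1 := by rw [hθd]; linarith
  have hθ0 : 0 < θ := by linarith
  obtain ⟨c, hc⟩ : ∃ c, c = γ ^ 2 / (1 - γ) := ⟨_, rfl⟩
  have hc0 : 0 < c := by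
    rw [hc]
    have : 0 < 1 - γ := by linarith
    positivity
  obtain ⟨X₀, hX⟩ : ∃ X₀, ∀ n, n ≤ 3 * (2 * m + 1) → x n ≤ X₀ := by
    have : ∀ k, ∃ u, ∀ i, i ≤ k → x i ≤ u := by
      intro k
      induction k with
      | zero => exact ⟨x 0, fun i hi => by rw [Nat.le_zero.1 hi]⟩
      | succ k ih =>
        obtain ⟨u, h2⟩ := ih
        refine ⟨max u (x (k + 1)), fun i hi => ?_⟩
        rcases Nat.lt_or_ge i (k + 1) with h | h
        · exact (h2 i (by omega)).trans (le_max_left _ _)
        · have : i = k + 1 := by omega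
          rw [this]
          exact le_max_right _ _
    exact this _
  -- choice of `q`
  obtain ⟨q, hq⟩ : ∃ q : ℕ, θ ^ q ≤ γ ^ (m + 1) := by
    obtain ⟨q, hq⟩ := exists_pow_lt_of_lt_one (by positivity : 0 < γ ^ (m + 1)) hθ1
    exact ⟨q, hq.le⟩
  -- choice of `r`
  have hPlim : Tendsto (fun r : ℕ => γ / θ ^ r) atTop atTop := by
    have h1 : Tendsto (fun r : ℕ => (θ⁻¹) ^ r) atTop atTop :=
      tendsto_pow_atTop_atTop_of_one_lt ((one_lt_inv₀ hθ0).2 hθ1)
    have h2 := h1.const_mul_atTop hγ
    refine h2.congr fun r => ?_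
    rw [inv_pow]
    rfl
  obtain ⟨K, hK⟩ : ∃ K, K = (1 + c) / (γ ^ (m * q + 2) * γ ^ q) := ⟨_, rfl⟩
  have hK0 : 0 < K := by rw [hK]; positivity
  have hlim2 : Tendsto (fun r : ℕ => K * γ ^ r) atTop (𝓝 0) := by
    have := (tendsto_pow_atTop_nhds_zero_of_lt_one hγ.le hγ1).const_mul K
    simpa using this
  have hδ : 0 < (θ - γ) / 2 := by linarith
  obtain ⟨r, hr1, hr2⟩ := ((hPlim.eventually_ge_atTop
    (max (X₀ + 1) (max 2 (1 + γ / ((θ - γ) / 2))))).and
    (hlim2.eventually_lt_const hδ)).exists
  obtain ⟨P, hP⟩ : ∃ P, P = γ / θ ^ r := ⟨_, rfl⟩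
  rw [← hP] at hr1
  have hPX : X₀ < P := by
    have := (le_max_left _ _).trans hr1
    linarith
  have hP2 : 2 ≤ P := ((le_max_left _ _).trans (le_max_right _ _)).trans hr1
  have hP3 : 1 + γ / ((θ - γ) / 2) ≤ P := ((le_max_right _ _).trans (le_max_right _ _)).trans hr1
  have hP0 : 0 < P := by linarith
  obtain ⟨A, hA⟩ : ∃ A, A = (P + c) / γ ^ (m * (q + r) + 2) := ⟨_, rfl⟩
  refine core γ m x hγ hγ1 hm hx θ c X₀ P A q r hθ hθ1 hc hX hP hP2 hPX ?_ ?_ ?_
  · rw [hA]
    field_simp
  · have h1 : γ / (P - 1) ≤ (θ - γ) / 2 := by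
      rw [div_le_iff₀ (by linarith)]
      have h2 : γ / ((θ - γ) / 2) ≤ P - 1 := by linarith
      rw [div_le_iff₀ hδ] at h2
      linarith
    have h2 : A / P ^ (q + 1) ≤ K * γ ^ r := by
      have e1 : A / P ^ (q + 1) = (1 + c / P) * (1 / (γ ^ (m * (q + r) + 2) * P ^ q)) := by
        rw [hA, pow_succ]
        field_simp
        ring
      have e2 : 1 / (γ ^ (m * (q + r) + 2) * P ^ q) =
          1 / (γ ^ (m * q + 2) * γ ^ q) * ((θ ^ q) ^ r / (γ ^ m) ^ r) := by
        rw [hP, div_pow, ← pow_mul θ r q, ← pow_mul θ q r, ← pow_mul γ m r, mul_comm r q,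
          show m * (q + r) + 2 = (m * q + 2) + m * r by ring, pow_add]
        field_simp
      have e3 : (θ ^ q) ^ r / (γ ^ m) ^ r ≤ γ ^ r := by
        rw [← div_pow]
        apply pow_le_pow_left₀ (by positivity)
        rw [div_le_iff₀ (by positivity), ← pow_succ']
        exact hq
      have e4 : c / P ≤ c := by
        rw [div_le_iff₀ hP0]
        nlinarith
      rw [e1, e2, hK]
      calc (1 + c / P) * (1 / (γ ^ (m * q + 2) * γ ^ q) * ((θ ^ q) ^ r / (γ ^ m) ^ r))
          ≤ (1 + c) * (1 / (γ ^ (m * q + 2) * γ ^ q) * γ ^ r) := by gcongr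
        _ = _ := by ring
    linarith
  · obtain ⟨n, hn⟩ := hcon A
    exact ⟨n, hn.le⟩

end Pool.Agent.Results.MP_2c59d0_an.AlwaysBounded
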